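import Pool.Agent.Run7.h982.BT.FELL

/-!
# MP_90d4f1_an, Q2: the assembly
-/

set_option autoImplicit false

open Set Filter Topology

namespace Pool.Agent.Run7.h982.BT

open Pool.Agent.W744.BU

theorem hcont {J B : Type} [CStarAlgebra B] (f : Op J →⋆ₐ[ℂ] B) : Continuous f :=
  AddMonoidHomClass.continuous_of_bound f 1 fun x => by
    rw [one_mul]
    exact NonUnitalStarAlgHom.norm_apply_le f x

/-- Two star homomorphisms which agree on the generators agree. -/
theorem hom_ext {J K B : Type} [CStarAlgebra B] (U : K → Op J) (f g : Op J →⋆ₐ[ℂ] B)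
    (h : ∀ k, f (U k) = g (U k)) : ∀ a ∈ CA U, f a = g a := by
  have hf : Continuous f := hcont f
  have hg : Continuous g := hcont g
  intro a ha
  have h1 : a ∈ closure ((StarAlgebra.adjoin ℂ (range U) : StarSubalgebra ℂ (Op J)) :
    Set (Op J)) := ha
  refine closure_minimal (t := {a | f a = g a}) ?_ (isClosed_eq hf hg) h1
  intro x hx
  induction hx using StarAlgebra.adjoin_induction with
  | mem x hx => obtain ⟨k, rfl⟩ := hx; exact h k
  | algebraMap r => exact (AlgHomClass.commutes f r).trans (AlgHomClass.commutes g r).symm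
  | add x y hx hy h1 h2 =>
    change f (x + y) = g (x + y)
    rw [map_add, map_add, h1, h2]
  | mul x y hx hy h1 h2 =>
    change f (x * y) = g (x * y)
    rw [map_mul, map_mul, h1, h2]
  | star x hx h1 =>
    change f (star x) = g (star x)
    rw [map_star, map_star, h1]

/-- A star homomorphism which maps the generators to a closed star subalgebra. -/
theorem hom_mem {J K B : Type} [CStarAlgebra B] (U : K → Op J) (f : Op J →⋆ₐ[ℂ] B)
    (S : StarSubalgebra ℂ B) (hS : IsClosed (S : Set B))
    (h : ∀ k, f (U k) ∈ S) : ∀ a ∈ CA U, f a ∈ S := by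
  have hf : Continuous f := hcont f
  intro a ha
  have h1 : a ∈ closure ((StarAlgebra.adjoin ℂ (range U) : StarSubalgebra ℂ (Op J)) :
    Set (Op J)) := ha
  refine closure_minimal (t := {a | f a ∈ S}) ?_ (hS.preimage hf) h1
  intro x hx
  induction hx using StarAlgebra.adjoin_induction with
  | mem x hx => obtain ⟨k, rfl⟩ := hx; exact h k
  | algebraMap r =>
    change f (algebraMap ℂ (Op J) r) ∈ S
    rw [AlgHomClass.commutes]
    exact S.algebraMap_mem r
  | add x y hx hy h1 h2 =>
    change f (x + y) ∈ S
    rw [map_add]; exact S.add_mem h1 h2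
  | mul x y hx hy h1 h2 =>
    change f (x * y) ∈ S
    rw [map_mul]; exact S.mul_mem h1 h2
  | star x hx h1 =>
    change f (star x) ∈ S
    rw [map_star]; exact star_mem h1

/-- A family of star homomorphisms which is continuous on the generators. -/
theorem hom_cont {J K B : Type} [CStarAlgebra B] (U : K → Op J) (f : unitInterval → Op J →⋆ₐ[ℂ] B)
    (h : ∀ k, Continuous fun t => f t (U k)) : ∀ a ∈ CA U, Continuous fun t => f t a := by
  have hcl : IsClosed {a : Op J | Continuous fun t => f t a} := by
    rw [← isSeqClosed_iff_isClosed]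
    intro u a hu hua
    have h1 : TendstoUniformly (fun n t => f t (u n)) (fun t => f t a) atTop := by
      rw [Metric.tendstoUniformly_iff]
      intro ε hε
      have h2 := (Metric.tendsto_atTop.1 hua) ε hε
      obtain ⟨N, hN⟩ := h2
      filter_upwards [eventually_ge_atTop N] with n hn t
      rw [dist_comm, dist_eq_norm, ← map_sub]
      refine lt_of_le_of_lt (NonUnitalStarAlgHom.norm_apply_le (f t) _) ?_
      rw [← dist_eq_norm]
      exact hN n hn
    exact h1.continuous (Eventually.of_forall hu).frequently
  intro a ha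
  have h1 : a ∈ closure ((StarAlgebra.adjoin ℂ (range U) : StarSubalgebra ℂ (Op J)) :
    Set (Op J)) := ha
  refine closure_minimal (t := {a | Continuous fun t => f t a}) ?_ hcl h1
  intro x hx
  induction hx using StarAlgebra.adjoin_induction with
  | mem x hx => obtain ⟨k, rfl⟩ := hx; exact h k
  | algebraMap r =>
    change Continuous fun t => f t (algebraMap ℂ (Op J) r)
    have : (fun t => f t (algebraMap ℂ (Op J) r)) = fun t => algebraMap ℂ B r := by
      funext t
      exact AlgHomClass.commutes (f t) r
    rw [this]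
    exact continuous_const
  | add x y hx hy h1 h2 =>
    change Continuous fun t => f t (x + y)
    simp only [map_add]
    exact h1.add h2
  | mul x y hx hy h1 h2 =>
    change Continuous fun t => f t (x * y)
    simp only [map_mul]
    exact h1.mul h2
  | star x hx h1 =>
    change Continuous fun t => f t (star x)
    simp only [map_star]
    exact h1.star

theorem GR : S_GR := parts.GR
theorem DU : S_DU := parts.DU
theorem CO : S_CO := parts.CO

theorem tens_unitary {I J : Type} {a : Op I} {b : Op J} (ha : a ∈ unitary (Op I))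
    (hb : b ∈ unitary (Op J)) : tens a b ∈ unitary (Op (I × J)) := by
  rw [Unitary.mem_iff] at ha hb ⊢
  rw [← TENS.2.2.1, ← TENS.2.1, ← TENS.2.1, ha.1, ha.2, hb.1, hb.2]
  exact ⟨TENS.2.2.2.1 _ _, TENS.2.2.2.1 _ _⟩

theorem mem_CA {J K : Type} (U : K → Op J) (k : K) : U k ∈ CA U :=
  StarSubalgebra.le_topologicalClosure _ (StarAlgebra.subset_adjoin _ _ (mem_range_self _))

theorem mem_spat {I J : Type} {A : StarSubalgebra ℂ (Op I)} {B : StarSubalgebra ℂ (Op J)}
    {a : Op I} {b : Op J} (ha : a ∈ A) (hb : b ∈ B) : tens a b ∈ spat A B :=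
  StarSubalgebra.le_topologicalClosure _ (StarAlgebra.subset_adjoin _ _
    ⟨a, ha, b, hb, isTens_tens a b⟩)

theorem tens_cont {I J : Type} (b : Op J) : Continuous fun a : Op I => tens a b := by
  let L : Op I →+ Op (I × J) := AddMonoidHom.mk' (fun a => tens a b)
    (fun a a' => TENS.2.2.2.2.1 I J a a' b)
  exact AddMonoidHomClass.continuous_of_bound L ‖b‖ fun x => by
    rw [mul_comm]
    exact (TENS.1 I J x b).2

open Classical in
theorem t_ASM : S_ASM := by
  intro G K _ _ _ w ρ hρ
  let R : Rep G := ⟨K, w⟩
  have hfell := fun t : unitInterval => t_FELL G (K × G) (ρ t)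
  choose ψ Ft hψ hFt using hfell
  obtain ⟨eLam, lam1, lamMul, lamStar, lamU, lamD⟩ := LAM G
  obtain ⟨eDG, DG, hDG, nDG⟩ := DOP G G id
  obtain ⟨eDJ, DJ, hDJ, nDJ⟩ := DOP G (R.I × G) Prod.snd
  obtain ⟨g1, g2, g3, g4⟩ := GR G G id lam lamU lamD
  have hU : ∀ g, UU R g ∈ unitary (Op (R.I × G)) := fun g =>
    tens_unitary (hρ.uni g) (lamU g)
  obtain ⟨k1, k2, k3, k4⟩ := GR G (R.I × G) Prod.snd (UU R) hU (DU G R)
  obtain ⟨FG, KG, FG1, KG1, KG2, SG⟩ := CO G G id
  obtain ⟨FJ, KJ, FJ1, KJ1, KJ2, SJ⟩ := CO G (R.I × G) Prod.snd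
  have hten : ∀ {I J : Type} (a : Op I) (b : Op J), IsTens a b (tens a b) :=
    fun a b => isTens_tens a b
  let Q : CQG :=
    { I := G
      H := CA lam
      isClosed := StarSubalgebra.isClosed_topologicalClosure _
      Δ := DG.comp (CA lam).subtype
      mem := by
        intro h
        have := g1 h h.2
        rw [← hDG] at this
        exact this
      coassoc := by
        refine ⟨FG.comp (spat (CA lam) (CA lam)).subtype, KG.comp (spat (CA lam) (CA lam)).subtype,
          ?_, ?_, ?_⟩
        · intro a b c h
          have := FG1 _ _ _ h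
          rw [← hDG] at this
          exact this
        · intro a b c h
          have := KG1 _ _ _ h
          rw [← hDG] at this
          exact this
        · intro h
          have := SG h
          rw [← hDG] at this
          exact this
      dense₁ := by
        refine g2.trans (closure_mono ?_)
        refine Submodule.span_mono ?_
        rintro x ⟨a, ha, h, hh, rfl⟩
        refine ⟨⟨a, ha⟩, ⟨h, hh⟩, tens 1 h, hten _ _, ?_⟩
        rw [← hDG]
        rfl
      dense₂ := by
        refine g3.trans (closure_mono ?_)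
        refine Submodule.span_mono ?_
        rintro x ⟨a, ha, b, hb, rfl⟩
        refine ⟨⟨a, ha⟩, ⟨b, hb⟩, tens b 1, hten _ _, ?_⟩
        rw [← hDG]
        rfl }
  let α : Coaction Q :=
    { J := R.I × G
      A := CA (UU R)
      isClosed := StarSubalgebra.isClosed_topologicalClosure _
      δ := DJ.comp (CA (UU R)).subtype
      inj := by
        intro a b h
        have h1 : DJ ((a : Op (R.I × G)) - b) = 0 := by
          rw [map_sub, sub_eq_zero]
          exact h
        have h2 : ‖(a : Op (R.I × G)) - b‖ = 0 := by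
          rw [← nDJ, h1, norm_zero]
        rw [norm_eq_zero, sub_eq_zero] at h2
        exact Subtype.ext h2
      mem := by
        intro a
        have := k1 a a.2
        rw [← hDJ] at this
        exact this
      coassoc := by
        refine ⟨FJ.comp (spat (CA (UU R)) (CA lam)).subtype,
          KJ.comp (spat (CA (UU R)) (CA lam)).subtype, ?_, ?_, ?_⟩
        · intro a b c h
          have := FJ1 _ _ _ h
          rw [← hDJ] at this
          exact this
        · intro a b c h
          have := KJ1 _ _ _ h
          rw [← hDG] at this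
          exact this
        · intro h
          have := SJ h
          rw [← hDJ] at this
          exact this
      dense := by
        refine k2.trans (closure_mono ?_)
        refine Submodule.span_mono ?_
        rintro x ⟨a, ha, h, hh, rfl⟩
        refine ⟨⟨a, ha⟩, ⟨h, hh⟩, tens 1 h, hten _ _, ?_⟩
        rw [← hDJ]
        rfl }
  have hcnt : ∀ a ∈ CA (lam : G → Op G), Continuous fun t => ψ t a := by
    refine hom_cont lam ψ ?_
    intro g
    have h1 : (fun t => ψ t (lam g)) = fun t => tens (ρ t g : Op (K × G)) (lam g) :=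
      funext fun t => hψ t g
    rw [h1]
    exact (tens_cont (lam g)).comp (hρ.cont g)
  let φ : Q.H →⋆ₐ[ℂ] C(unitInterval, Op (α.J × Q.I)) :=
    { toFun := fun a => ⟨fun t => ψ t (a : Op G), hcnt a a.2⟩
      map_one' := by
        ext1 t
        exact map_one (ψ t)
      map_mul' := fun a b => by
        ext1 t
        exact map_mul (ψ t) (a : Op G) (b : Op G)
      map_zero' := by
        ext1 t
        exact map_zero (ψ t)
      map_add' := fun a b => by
        ext1 t
        exact map_add (ψ t) (a : Op G) (b : Op G)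
      commutes' := fun z => by
        ext1 t
        exact AlgHomClass.commutes (ψ t) z
      map_star' := fun a => by
        ext1 t
        exact map_star (ψ t) (a : Op G) }
  refine ⟨Q, α, ?_, ?_, ?_, ?_, φ, ?_⟩
  · refine ⟨Equiv.refl G, fun g => ⟨lam g, mem_CA lam g⟩, ?_, ?_, ?_⟩
    · intro g i j
      exact eLam g i j
    · intro x hx
      exact hx
    · intro g
      change IsTens (lam g) (lam g) (DG (lam g))
      rw [hDG, lamD]
      exact hten _ _
  · obtain ⟨g, hg⟩ := exists_ne (1 : G)
    refine ⟨lam g, mem_CA lam g, ?_⟩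
    intro z hz
    have h1 := eLam g g 1
    rw [mul_one, if_pos rfl, hz] at h1
    have h2 : entry (z • (1 : Op G)) g 1 = z * entry (1 : Op G) g 1 := rfl
    have h3 := ENT.2.2.2.2 G g 1
    rw [if_neg hg] at h3
    have h4 : (1 : ℂ) = 0 := by
      rw [← h1]
      refine h2.trans ?_
      rw [h3, mul_zero]
    exact one_ne_zero h4
  · exact ⟨(Classical.arbitrary K, 1)⟩
  · refine k4.trans (closure_mono ?_)
    refine Submodule.span_mono ?_
    rintro x ⟨a, ha, b, hb, rfl⟩
    refine ⟨⟨a, ha⟩, ⟨b, hb⟩, tens a 1, hten _ _, ?_⟩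
    rw [← hDJ]
    rfl
  · have hJ : ∀ a, α.InJoin (φ a) := by
      intro a
      refine ⟨fun t => ?_, ⟨(a : Op G), a.2, ?_⟩, ?_⟩
      · refine hom_mem lam (ψ t) (spat (CA (UU R)) (CA lam))
          (StarSubalgebra.isClosed_topologicalClosure _) ?_ (a : Op G) a.2
        intro g
        rw [hψ]
        exact mem_spat (hρ.mem t g) (mem_CA lam g)
      · have h1 := hom_ext lam (ψ 0) (Tl (K × G) G) (fun g => by
          rw [hψ, hρ.zero]
          rfl) (a : Op G) a.2
        change IsTens 1 (a : Op G) (ψ 0 (a : Op G))
        rw [h1]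
        exact hten _ _
      · have h1 : tens (1 : Op K) (a : Op G) ∈ CA (UU R) := by
          refine hom_mem lam (Tl K G) (CA (UU R))
            (StarSubalgebra.isClosed_topologicalClosure _) ?_ (a : Op G) a.2
          intro g
          change tens (1 : Op K) (lam g) ∈ _
          rw [← hρ.one g]
          exact hρ.mem 1 g
        refine ⟨⟨_, h1⟩, ?_⟩
        have h2 := hom_ext lam (ψ 1) (DJ.comp (Tl K G)) (fun g => by
          rw [hψ, hρ.one]
          change _ = DJ (tens (1 : Op K) (lam g))
          rw [hDJ]
          exact (DU G ⟨K, fun _ => 1⟩ g).symm) (a : Op G) a.2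
        exact h2
    refine ⟨hJ, fun t => ?_⟩
    refine ⟨(ψ t).comp (CA lam).subtype, (Ft t).comp (spat (CA lam) (CA lam)).subtype,
      KJ.comp (spat (CA (UU R)) (CA lam)).subtype, fun a => rfl, ?_, ?_, ?_⟩
    · intro a b c h
      exact hFt t _ _ _ h
    · intro a b c h
      have := KJ1 _ _ _ h
      rw [← hDG] at this
      exact this
    · intro a
      let σ : ((K × G) × G) × G → (K × G) × (G × G) := fun p => (p.1.1, (p.1.2, p.2))
      have s1 : Function.Injective σ := by
        rintro ⟨⟨j, g⟩, k⟩ ⟨⟨j', g'⟩, k'⟩ h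
        simp only [σ, Prod.mk.injEq] at h
        obtain ⟨rfl, rfl, rfl⟩ := h
        rfl
      have s2 : Function.Surjective σ := fun p => ⟨((p.1, p.2.1), p.2.2), rfl⟩
      obtain ⟨C, hC⟩ := comp_hom σ s1 s2
      have key := hom_ext lam ((Ft t).comp DG) (C.comp (KJ.comp (ψ t))) (fun g => by
        change Ft t (DG (lam g)) = C (KJ (ψ t (lam g)))
        have e1 : Ft t (DG (lam g)) = tens (tens (ρ t g : Op (K × G)) (lam g)) (lam g) := by
          rw [hDG, lamD]
          have := isTens_eq (hFt t _ _ _ (hten (lam g) (lam g)))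
          rw [hψ] at this
          exact this
        have e2 : KJ (ψ t (lam g)) = tens (ρ t g : Op (K × G)) (tens (lam g) (lam g)) := by
          rw [hψ]
          have := isTens_eq (KJ1 _ _ _ (hten (ρ t g : Op (K × G)) (lam g)))
          rw [lamD] at this
          exact this
        rw [e1, e2, hC]
        symm
        apply isTens_eq
        intro i k i' k'
        obtain ⟨j, h⟩ := i
        obtain ⟨j', h'⟩ := i'
        rw [(COMP _ _ σ s1).1]
        have f1 := hten (ρ t g : Op (K × G)) (tens (lam g) (lam g)) j (h, k) j' (h', k')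
        have f2 := hten (lam g) (lam g) h k h' k'
        have f3 := hten (ρ t g : Op (K × G)) (lam g) j h j' h'
        rw [f3, mul_assoc, ← f2]
        exact f1) (a : Op G) a.2
      intro i j k i' j' k'
      have e1 := congrArg (fun x : Op (((K × G) × G) × G) => entry x ((i, j), k) ((i', j'), k')) key
      refine e1.trans ?_
      change entry (C (KJ (ψ t (a : Op G)))) ((i, j), k) ((i', j'), k') = _
      rw [hC, (COMP _ _ σ s1).1]
      rfl

end Pool.Agent.Run7.h982.BT
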