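import Pool.Agent.Run7.h982.BT.Iface

/-!
# MP_90d4f1_an, Q2: Fell absorption
-/

set_option autoImplicit false

open Set Filter Topology

namespace Pool.Agent.Run7.h982.BT

open Pool.Agent.W744.BU

theorem ENT : S_ENT := Pool.Agent.W740.BU.ENT.main
theorem TENS : S_TENS := Pool.Agent.W566.BU.TENS.main ENT
theorem COMP : S_COMP := Pool.Agent.W238.BU.COMP.main ENT
theorem BLK : S_BLK := Pool.Agent.W639.BU.BLK.main ENT
theorem DOP : S_DOP := Pool.Agent.W196.BU.DOP.main ENT TENS
theorem LAM : S_LAM := Pool.Agent.W37.BU.LAM.main ENT TENS DOP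

theorem ent_ext {I : Type} {a b : Op I} (h : ∀ i j, entry a i j = entry b i j) : a = b :=
  ENT.1 I a b h

theorem isTens_tens {I J : Type} (a : Op I) (b : Op J) : IsTens a b (tens a b) :=
  (TENS.1 I J a b).1

theorem isTens_eq {I J : Type} {a : Op I} {b : Op J} {c : Op (I × J)} (h : IsTens a b c) :
    c = tens a b := by
  apply ent_ext
  rintro ⟨i, k⟩ ⟨i', k'⟩
  rw [h i k i' k', isTens_tens a b i k i' k']

/-- `b ↦ 1 ⊗ b`. -/
noncomputable def Tl (I J : Type) : Op J →⋆ₐ[ℂ] Op (I × J) where
  toFun b := tens (1 : Op I) b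
  map_one' := TENS.2.2.2.1 I J
  map_mul' b b' := by
    have := TENS.2.1 I J (1 : Op I) 1 b b'
    rwa [one_mul] at this
  map_zero' := by
    have := (TENS.2.2.2.2.2.2.1 I J (0 : ℂ) (1 : Op I) (0 : Op J)).2
    rwa [zero_smul, zero_smul] at this
  map_add' b b' := TENS.2.2.2.2.2.1 I J 1 b b'
  commutes' z := by
    have := (TENS.2.2.2.2.2.2.1 I J z (1 : Op I) (1 : Op J)).2
    rw [TENS.2.2.2.1 I J] at this
    rw [Algebra.algebraMap_eq_smul_one, Algebra.algebraMap_eq_smul_one]
    exact this
  map_star' b := by
    have := TENS.2.2.1 I J (1 : Op I) b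
    rwa [star_one] at this

/-- The map of index sets as a star homomorphism, for bijections. -/
theorem comp_hom {J' J : Type} (ι : J' → J) (h1 : Function.Injective ι)
    (h2 : Function.Surjective ι) : ∃ C : Op J →⋆ₐ[ℂ] Op J', ∀ a, C a = comp ι a := by
  obtain ⟨-, -, R, -, hR, C, hC⟩ := COMP J' J ι h1
  have hall : ∀ a, a ∈ R := fun a => (hR a).2 fun j i hj => (hj (h2 j)).elim
  refine ⟨C.comp
    { toFun := fun a => ⟨a, hall a⟩
      map_one' := rfl
      map_mul' := fun _ _ => rfl
      map_zero' := rfl
      map_add' := fun _ _ => rfl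
      commutes' := fun _ => rfl
      map_star' := fun _ => rfl }, fun a => hC ⟨a, hall a⟩⟩

/-- Conjugation by a unitary. -/
noncomputable def cj {B : Type} [CStarAlgebra B] (W : B) (hW : W ∈ unitary B) : B →⋆ₐ[ℂ] B where
  toFun b := W * b * star W
  map_one' := by
    rw [mul_one]
    exact Unitary.mul_star_self_of_mem hW
  map_mul' b b' := by
    have h : star W * W = 1 := Unitary.star_mul_self_of_mem hW
    calc W * (b * b') * star W = W * b * 1 * b' * star W := by noncomm_ring
      _ = W * b * (star W * W) * b' * star W := by rw [h]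
      _ = _ := by noncomm_ring
  map_zero' := by simp
  map_add' b b' := by noncomm_ring
  commutes' z := by
    have h : W * star W = 1 := Unitary.mul_star_self_of_mem hW
    rw [← Algebra.commutes, mul_assoc, h, mul_one]
  map_star' b := by
    simp [mul_assoc]

open Classical in
theorem exW {G J : Type} [Group G] (ρ : G →* unitary (Op J)) :
    ∃ W : Op (J × G), W ∈ unitary (Op (J × G)) ∧ ∀ j g j' g', entry W (j, g) (j', g') =
      if g = g' then entry (ρ g : Op J) j j' else 0 := by
  let ι : J × G → Σ _ : G, J := fun p => ⟨p.2, p.1⟩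
  have h1 : Function.Injective ι := by
    rintro ⟨j, g⟩ ⟨j', g'⟩ h
    have e1 : g = g' := congrArg Sigma.fst h
    subst e1
    have e2 : j = j' := by
      have := (Sigma.mk.inj h).2
      exact eq_of_heq this
    rw [e2]
  have h2 : Function.Surjective ι := fun p => ⟨(p.2, p.1), rfl⟩
  obtain ⟨C, hC⟩ := comp_hom ι h1 h2
  have hb := BLK G (fun _ => J) (fun g => (ρ g : Op J)) 1 (fun g => by
    rcases subsingleton_or_nontrivial (Op J) with h | h
    · have : (ρ g : Op J) = 0 := Subsingleton.elim _ _
      rw [this, norm_zero]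
      exact zero_le_one
    · exact (CStarRing.norm_coe_unitary (ρ g)).le)
  obtain ⟨b1, b2, b3⟩ := hb
  have hu := b3 fun g => (ρ g).2
  refine ⟨C (blk fun g => (ρ g : Op J)), ?_, ?_⟩
  · rw [Unitary.mem_iff] at hu ⊢
    refine ⟨?_, ?_⟩
    · rw [← map_star, ← map_mul, hu.1, map_one]
    · rw [← map_star, ← map_mul, hu.2, map_one]
  · intro j g j' g'
    rw [hC, (COMP _ _ ι h1).1]
    by_cases hg : g = g'
    · subst hg
      rw [if_pos rfl]
      exact b1 g j j'
    · rw [if_neg hg]
      exact b2 (ι (j, g)) (ι (j', g')) hg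

open Classical in
theorem t_FELL : S_FELL := by
  intro G J _ ρ
  obtain ⟨W, hW, eW⟩ := exW ρ
  let σ : (J × G) × G → J × (G × G) := fun p => (p.1.1, (p.1.2, p.2))
  have s1 : Function.Injective σ := by
    rintro ⟨⟨j, g⟩, k⟩ ⟨⟨j', g'⟩, k'⟩ h
    simp only [σ, Prod.mk.injEq] at h
    obtain ⟨rfl, rfl, rfl⟩ := h
    rfl
  have s2 : Function.Surjective σ := fun p => ⟨((p.1, p.2.1), p.2.2), rfl⟩
  obtain ⟨C, hC⟩ := comp_hom σ s1 s2
  have hst : star (tens W (1 : Op G)) = tens (star W) (1 : Op G) := by
    have := TENS.2.2.1 (J × G) G W (1 : Op G)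
    rw [star_one] at this
    exact this.symm
  have hmul : ∀ (x y : Op (J × G)) (x' y' : Op G), tens x x' * tens y y' = tens (x * y) (x' * y') :=
    fun x y x' y' => (TENS.2.1 (J × G) G x y x' y').symm
  have hW1 : tens W (1 : Op G) ∈ unitary (Op ((J × G) × G)) := by
    rw [Unitary.mem_iff] at hW ⊢
    rw [hst, hmul, hmul, hW.1, hW.2, one_mul]
    exact ⟨TENS.2.2.2.1 _ _, TENS.2.2.2.1 _ _⟩
  refine ⟨(cj W hW).comp (Tl J G), (cj (tens W (1 : Op G)) hW1).comp (C.comp (Tl J (G × G))),
    ?_, ?_⟩
  · intro g
    have key : W * tens (1 : Op J) (lam g) = tens (ρ g : Op J) (lam g) * W := by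
      apply ent_ext
      rintro ⟨j, h⟩ ⟨j', h'⟩
      have a1 := ENT.2.2.1 _ W (tens (1 : Op J) (lam g)) (j, h) (j', h')
      have a2 := ENT.2.2.1 _ (tens (ρ g : Op J) (lam g)) W (j, h) (j', h')
      have b1 : HasSum (fun k : J × G => entry W (j, h) k *
          entry (tens (1 : Op J) (lam g)) k (j', h'))
          (if h = g * h' then entry (ρ h : Op J) j j' else 0) := by
        have := hasSum_single (f := fun k : J × G => entry W (j, h) k *
          entry (tens (1 : Op J) (lam g)) k (j', h')) (j', g * h') (by
            rintro ⟨i, k⟩ hk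
            have e1 := isTens_tens (1 : Op J) (lam g) i k j' h'
            rw [ENT.2.2.2.2, (LAM G).1] at e1
            simp only [e1]
            by_cases hi : i = j'
            · by_cases hk' : k = g * h'
              · exact (hk (by rw [hi, hk'])).elim
              · rw [if_neg hk', mul_zero, mul_zero]
            · rw [if_neg hi, zero_mul, mul_zero])
        have e1 := isTens_tens (1 : Op J) (lam g) j' (g * h') j' h'
        rw [ENT.2.2.2.2, (LAM G).1, if_pos rfl, if_pos rfl, one_mul] at e1
        beta_reduce at this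
        rw [e1, eW, mul_one] at this
        exact this
      have c1 : entry (W * tens (1 : Op J) (lam g)) (j, h) (j', h') =
          if h = g * h' then entry (ρ h : Op J) j j' else 0 := a1.unique b1
      have b2 : HasSum (fun k : J × G => entry (tens (ρ g : Op J) (lam g)) (j, h) k *
          entry W k (j', h')) (if h = g * h' then entry (ρ h : Op J) j j' else 0) := by
        have inj : Function.Injective (fun i : J => ((i, h') : J × G)) := fun x y hxy =>
          congrArg Prod.fst hxy
        rw [← inj.hasSum_iff]
        · have d1 := ENT.2.2.1 J (ρ g : Op J) (ρ h' : Op J) j j'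
          by_cases hh : h = g * h'
          · rw [if_pos hh]
            have d2 : (ρ g : Op J) * (ρ h' : Op J) = (ρ h : Op J) := by
              rw [hh, map_mul]
              rfl
            rw [d2] at d1
            have d3 : ((fun k : J × G => entry (tens (ρ g : Op J) (lam g)) (j, h) k *
                entry W k (j', h')) ∘ fun i : J => (i, h')) =
                fun i => entry (ρ g : Op J) j i * entry (ρ h' : Op J) i j' := by
              funext i
              have e1 := isTens_tens (ρ g : Op J) (lam g) j h i h'
              rw [(LAM G).1, if_pos hh, mul_one] at e1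
              change entry (tens (ρ g : Op J) (lam g)) (j, h) (i, h') * entry W (i, h') (j', h') = _
              rw [e1, eW, if_pos rfl]
            rw [d3]
            exact d1
          · rw [if_neg hh]
            have d3 : ((fun k : J × G => entry (tens (ρ g : Op J) (lam g)) (j, h) k *
                entry W k (j', h')) ∘ fun i : J => (i, h')) = fun i => 0 := by
              funext i
              have e1 := isTens_tens (ρ g : Op J) (lam g) j h i h'
              rw [(LAM G).1, if_neg hh, mul_zero] at e1
              change entry (tens (ρ g : Op J) (lam g)) (j, h) (i, h') * entry W (i, h') (j', h') = _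
              rw [e1, zero_mul]
            rw [d3]
            exact hasSum_zero
        · rintro ⟨i, k⟩ hk
          have hk' : k ≠ h' := by
            rintro rfl
            exact hk ⟨i, rfl⟩
          rw [eW, if_neg hk', mul_zero]
      rw [c1]
      exact b2.unique a2
    have hW2 := Unitary.mul_star_self_of_mem hW
    change W * tens (1 : Op J) (lam g) * star W = _
    rw [key, mul_assoc, hW2, mul_one]
  · intro a b c h
    have hc := isTens_eq h
    subst hc
    have e1 : C (tens (1 : Op J) (tens a b)) = tens (tens (1 : Op J) a) b := by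
      rw [hC]
      apply isTens_eq
      intro i k i' k'
      obtain ⟨j, g⟩ := i
      obtain ⟨j', g'⟩ := i'
      rw [(COMP _ _ σ s1).1]
      have f1 := isTens_tens (1 : Op J) (tens a b) j (g, k) j' (g', k')
      have f2 := isTens_tens a b g k g' k'
      have f3 := isTens_tens (1 : Op J) a j g j' g'
      rw [f3, mul_assoc, ← f2]
      exact f1
    change IsTens (W * tens (1 : Op J) a * star W) b
      (tens W (1 : Op G) * C (tens (1 : Op J) (tens a b)) * star (tens W (1 : Op G)))
    rw [e1, hst, hmul, hmul, one_mul, mul_one]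
    exact isTens_tens _ _

end Pool.Agent.Run7.h982.BT
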