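import Pool.Agent.W744.BU.Trans
import Pool.Agent.W744.BU.All

/-!
# MP_90d4f1_an, Q2: the noncommutative Borsuk-Ulam conjecture of type 2 fails for free groups

Negative answer to Q2. Let `G` be a nontrivial free group (for instance the integers),
`H = C*_r(G)` (for the integers `H = C(circle)`), and `A = C*_r(G) ⊗ B` with a unital C*-algebra
`B` that contains isometries `s, t` with `s s* + t t* = 1` (Cuntz algebra), with the coaction
`Δ ⊗ id`, which is free. In `A` each unitary `z` that commutes with `s, t` is joined to `1` by a path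
of unitaries; so the homomorphism `g ↦ λ_g ⊗ 1` of `G` is joined to the trivial one by a path `ρ_t` of
homomorphisms to the unitary group of `A`, and `λ_g ↦ ρ_t(g) ⊗ λ_g` (Fell absorption) is an
equivariant unital star homomorphism from `H` to the join.

Everything is built on the library `Pool.Agent.W744.BU` (`Defs`, `Tool`, `Stm`, `All`): `Op I`,
`entry`, `tens`, `IsTens`, `spat`, `comp`, `blk`, `lam`, `Dop`, `CA`, `UU`, `CQG`, `Coaction`; the
proved facts are the fields of `parts` and the theorems `main` used in `All.lean`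
(`Pool.Agent.W740.BU.ENT.main : S_ENT` and so on).

Pieces: `S_CUNTZ`, `S_ROT`, `S_PATH`, `S_FELL`, `S_FAM`, `S_ASM`.
-/

set_option autoImplicit false

open Set Filter Topology

namespace Pool.Agent.Run7.h982.BT

open Pool.Agent.W744.BU

/-- The Cuntz relations. -/
structure Cuntz {B : Type} [CStarAlgebra B] (s t : B) : Prop where
  ss : star s * s = 1
  tt : star t * t = 1
  st : star s * t = 0
  sum : s * star s + t * star t = 1

/-- CUNTZ: there are such operators on some `ℓ²(K)`: e.g. `K = ℕ`, `s e_n = e_{2n}`,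
`t e_n = e_{2n+1}`. (Mathlib: `OrthogonalFamily.linearIsometry` for the orthonormal families
`n ↦ e_{2n}`, `n ↦ e_{2n+1}`, or bounded operators with given matrices; `S_ENT` of the library gives
the rules for the matrix entries: products by `HasSum`, adjoints, two operators with equal entries
are equal.) -/
def S_CUNTZ : Prop := ∃ (K : Type) (_ : Nonempty K) (s t : Op K), Cuntz s t

/-- `p`, `q` are orthogonal projections and `x` is a partial isometry from `p` to `q`. -/
structure Rot {B : Type} [CStarAlgebra B] (p q x : B) : Prop where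
  sp : star p = p
  pp : p * p = p
  sq : star q = q
  qq : q * q = q
  pq : p * q = 0
  xp : star x * x = p
  xq : x * star x = q

/-- ROT: the unitaries `1 - p + p z` and `1 - q + q z` are joined by a path of unitaries:
`t ↦ R (1 - p + p z) R*` with `R = 1 - p - q + cos θ (p + q) + sin θ (x - x*)`, `θ = π t / 2`.
(`x p = x = q x`, `p x = 0 = x q`, `x x = 0`, as `‖x - x p‖² = ‖(x - x p)* (x - x p)‖ = 0`.) -/
def S_ROT : Prop :=
  ∀ (B : Type) [CStarAlgebra B] (p q x z : B), Rot p q x → z ∈ unitary B →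
    z * p = p * z → z * q = q * z → z * x = x * z → z * star x = star x * z →
    ∃ f : unitInterval → B, Continuous f ∧ (∀ t, f t ∈ unitary B) ∧ f 0 = 1 - p + p * z ∧
      f 1 = 1 - q + q * z ∧
      ∀ S : StarSubalgebra ℂ B, p ∈ S → q ∈ S → x ∈ S → z ∈ S → ∀ t, f t ∈ S

/-- PATH: a unitary commuting with Cuntz isometries is joined to `1`. Let `Z(p) = 1 - p + p z`,
`p = s s*`, `q = 1 - p = t t*`, `p' = s s s* s*`, `p'' = p - p' = s t t* s*`. By `S_ROT` there are
paths `α : Z(p) → Z(q)` (`x = t s*`), `β : Z(p') → Z(q)` (`x = t s* s*`), `γ : Z(p'') → Z(q)`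
(`x = t t* s*`). With `c = β γ α*` (from `Z(p') Z(p'') Z(p)* = 1` to `Z(q)`) the path
`c α* Z(p) c` goes from `1` to `Z(q) Z(q)* Z(p) Z(q) = Z(p) Z(q) = z`. -/
def S_PATH : Prop :=
  ∀ (B : Type) [CStarAlgebra B] (s t z : B), Cuntz s t → z ∈ unitary B →
    z * s = s * z → z * t = t * z → z * star s = star s * z → z * star t = star t * z →
    ∃ f : unitInterval → B, Continuous f ∧ (∀ r, f r ∈ unitary B) ∧ f 0 = 1 ∧ f 1 = z ∧
      ∀ S : StarSubalgebra ℂ B, s ∈ S → t ∈ S → z ∈ S → ∀ r, f r ∈ S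

/-- FELL: absorption. `ψ(h) = W (1 ⊗ h) W*` with the unitary `W` on `ℓ²(J × G)` which is block
diagonal with block `ρ(g)` on `ℓ²(J) ⊗ e_g`: entry `(j, g), (j', g')` of `W` is
`entry (ρ g) j j'` if `g = g'`, else `0`. (`W = comp ι (blk fun g => ρ g)` with the bijection
`ι : J × G → Σ g : G, J`; `S_BLK`, `S_COMP`.) `F(c) = (W ⊗ 1) (1 ⊗ c) (W ⊗ 1)*`, where `1 ⊗ c` on
`ℓ²(J × (G × G))` is moved to `ℓ²((J × G) × G)` by `comp`. -/
def S_FELL : Prop :=
  ∀ (G J : Type) [Group G] (ρ : G →* unitary (Op J)),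
    ∃ (ψ : Op G →⋆ₐ[ℂ] Op (J × G)) (F : Op (G × G) →⋆ₐ[ℂ] Op ((J × G) × G)),
      (∀ g, ψ (lam g) = tens (ρ g : Op J) (lam g)) ∧
      ∀ (a b : Op G) (c : Op (G × G)), IsTens a b c → IsTens (ψ a) b (F c)

/-- The path of homomorphisms of `G` to the unitary group of `A = CA (UU ⟨K, w⟩)`. -/
structure Fam (G K : Type) [Group G] (w : G → Op K) (ρ : unitInterval → G →* unitary (Op (K × G))) :
    Prop where
  uni : ∀ g, w g ∈ unitary (Op K)
  cont : ∀ g, Continuous fun t => (ρ t g : Op (K × G))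
  mem : ∀ t g, (ρ t g : Op (K × G)) ∈ CA (UU (⟨K, w⟩ : Rep G))
  zero : ∀ g, (ρ 0 g : Op (K × G)) = 1
  one : ∀ g, (ρ 1 g : Op (K × G)) = tens (1 : Op K) (lam g)

/-- FAM (uses `S_CUNTZ`, `S_PATH`): such a family exists for free groups. Take `K, s, t` from
`S_CUNTZ`. By `CStarAlgebra.span_unitary` (or `span_unitary`) `s` and `t` are linear combinations of
unitaries; let `v : ℕ → unitary (Op K)` contain them. Fix `x₀ : S` and let `w g = v n` if
`g = x₀^(n+2)`, and `w g = 1` for all other `g`. Then `A` contains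
`UU (x) = tens 1 (lam x)` for all generators `x` and `UU (x₀^(n+2)) (tens 1 (lam x₀))*^(n+2) =
tens (v n) 1`, so `tens s 1`, `tens t 1`. These satisfy the Cuntz relations and commute with
`z_x = tens 1 (lam x)`; let `f_x` be the path of `S_PATH` from `1` to `z_x`, in `A`, and
`ρ_t = FreeGroup.lift (x ↦ f_x t)`. Continuity and membership by `FreeGroup.induction_on`. -/
def S_FAM : Prop :=
  ∀ (S : Type) [Nonempty S], ∃ (K : Type) (_ : Nonempty K) (w : FreeGroup S → Op K)
    (ρ : unitInterval → FreeGroup S →* unitary (Op (K × FreeGroup S))), Fam (FreeGroup S) K w ρ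

/-- Equivariant unital star homomorphisms from `H` to the join (first form of the definitions). -/
def JoinMap2 {Q : CQG} (α : Coaction Q)
    (φ : Q.H →⋆ₐ[ℂ] C(unitInterval, Op (α.J × Q.I))) : Prop :=
  ∃ hφ : ∀ a, α.InJoin (φ a), ∀ t : unitInterval,
    ∃ (φt : Q.H →⋆ₐ[ℂ] Op (α.J × Q.I)) (F : spat Q.H Q.H →⋆ₐ[ℂ] Op ((α.J × Q.I) × Q.I))
      (G : spat α.A Q.H →⋆ₐ[ℂ] Op (α.J × (Q.I × Q.I))),
      (∀ a, φt a = φ a t) ∧ IsTensHom φt Q.H.subtype F ∧ IsTensHom α.A.subtype Q.Δ G ∧
        ∀ a, SameAssoc (F ⟨Q.Δ a, Q.mem a⟩) (G ⟨φ a t, (hφ a).1 t⟩)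

open Classical in
/-- `Q` is the reduced C*-algebra of the group `G` with its comultiplication. -/
def IsRed (G : Type) [Group G] (Q : CQG) : Prop :=
  ∃ (e : Q.I ≃ G) (u : G → Q.H), (∀ g i j, entry (u g : Op Q.I) i j = if e i = g * e j then 1 else 0) ∧
    ((Q.H : Set (Op Q.I)) ⊆ closure (StarAlgebra.adjoin ℂ (range fun g => (u g : Op Q.I)) :
      Set (Op Q.I))) ∧ ∀ g, IsTens (u g : Op Q.I) (u g : Op Q.I) (Q.Δ (u g))

/-- ASM (uses `S_FELL`; `Q` and `α` as in `Pool.Agent.W744.BU.final`, with the family `⟨K, w⟩` in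
place of `tot D`: facts `GR`, `DU`, `CO`, `DOP`, `LAM`, `TENS`, `ENT`; `UU` is unitary since `w` is).
The map is `φ(h)(t) = ψ_t(h)` with `ψ_t` from `S_FELL` for `ρ_t`. Continuity in `t` for `h = lam g`
from `Fam.cont`, in general by density (`‖ψ_t h‖ ≤ ‖h‖`: star homomorphisms are contractive) and
uniform limits. `φ(h)(t) ∈ spat A H` by density; `φ(h)(0) = tens 1 h`; `φ(h)(1) = Dop snd (tens 1 h)`
and `tens 1 h ∈ A`, by density from `h = lam g` (`tens 1 (lam g) ∈ A` by `Fam.mem 1 g`).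
Equivariance: `F_t(Δ h)` and `(id ⊗ Δ)(ψ_t h)` are equal up to the reassociation (which is a star
isomorphism `comp`), by density from `h = lam g`. -/
def S_ASM : Prop :=
  ∀ (G K : Type) [Group G] [Nontrivial G] [Nonempty K] (w : G → Op K)
    (ρ : unitInterval → G →* unitary (Op (K × G))), Fam G K w ρ →
    ∃ (Q : CQG) (α : Coaction Q), IsRed G Q ∧ Q.NonTrivial ∧ Nonempty α.J ∧ α.Free ∧
      ∃ φ : Q.H →⋆ₐ[ℂ] C(unitInterval, Op (α.J × Q.I)), JoinMap2 α φ

end Pool.Agent.Run7.h982.BT
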