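import Pool.Agent.Run7.h982.BT.Iface

/-!
# MP_90d4f1_an, Q2: transport to the definitions with functions on all operators
-/

set_option autoImplicit false

open Set Filter Topology

namespace Pool.Agent.Run7.h982.BT

open Pool.Agent.W744.BU

/-- `φ` is an equivariant unital star homomorphism from `H` to the equivariant join: for `h ∈ H`
the path `φ h` is in the join, for every `t` the map `φ_t : h ↦ φ h t` is a unital star
homomorphism and `(id ⊗ Δ) (φ_t(h)) = (φ_t ⊗ id) (Δ(h))` for all `h ∈ H`. -/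
def IsJoinMap2 {Q : Fin.CQG} (α : Fin.Coaction Q)
    (φ : Fin.Op Q.I → unitInterval → Fin.Op (α.J × Q.I)) : Prop :=
  (∀ h ∈ Q.H, α.InJoin (φ h)) ∧ ∀ t : unitInterval, Fin.IsHom Q.H (fun h => φ h t) ∧
    ∃ (F : Fin.Op (Q.I × Q.I) → Fin.Op ((α.J × Q.I) × Q.I))
      (G : Fin.Op (α.J × Q.I) → Fin.Op (α.J × (Q.I × Q.I))),
      Fin.IsTensHom Q.H Q.H (fun h => φ h t) id F ∧ Fin.IsTensHom α.A Q.H id Q.Δ G ∧
        ∀ h ∈ Q.H, Fin.SameAssoc (F (Q.Δ h)) (G (φ h t))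

open Classical in
/-- `(H, Δ)` is the reduced C*-algebra of the group `G` with its comultiplication: up to a
bijection `e` of the index sets `H` is generated by the left translations `u_g` of `ℓ²(G)`, and
`Δ(u_g) = u_g ⊗ u_g`. -/
def IsRedF (G : Type) [Group G] (Q : Fin.CQG) : Prop :=
  ∃ (e : Q.I ≃ G) (u : G → Fin.Op Q.I), (∀ g, u g ∈ Q.H) ∧
    (∀ g i j, Fin.entry (u g) i j = if e i = g * e j then 1 else 0) ∧
    (∀ h ∈ Q.H, h ∈ closure ((StarAlgebra.adjoin ℂ (range u) : Fin.SA Q.I) :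
      Set (Fin.Op Q.I))) ∧ ∀ g, Fin.IsTens (u g) (u g) (Q.Δ (u g))

theorem transB {G : Type} [Group G]
    (h : ∃ (Q : CQG) (α : Coaction Q), IsRed G Q ∧ Q.NonTrivial ∧ Nonempty α.J ∧ α.Free ∧
      ∃ φ : Q.H →⋆ₐ[ℂ] C(unitInterval, Op (α.J × Q.I)), JoinMap2 α φ) :
    ∃ (Q : Fin.CQG) (α : Fin.Coaction Q), IsRedF G Q ∧ Q.NonTrivial ∧ Nonempty α.J ∧ α.Free ∧
      ∃ φ : Fin.Op Q.I → unitInterval → Fin.Op (α.J × Q.I), IsJoinMap2 α φ := by
  classical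
  obtain ⟨Q, α, hred, hnt, hJ, hfree, φ, hφ, hφ2⟩ := h
  refine ⟨Trans.cqg Q, Trans.coa α, ?_, hnt, hJ, ?_, ?_⟩
  · obtain ⟨e, u, hu1, hu2, hu3⟩ := hred
    refine ⟨e, fun g => (u g : Op Q.I), fun g => (u g).2, hu1, fun h hh => hu2 hh, fun g => ?_⟩
    have h1 := Trans.ex_eq Q.Δ (u g : Op Q.I) (u g).2
    have h2 : Fin.IsTens (I := Q.I) (J := Q.I) (u g : Op Q.I) (u g : Op Q.I)
        (Q.Δ (u g) : Op (Q.I × Q.I)) := hu3 g
    intro i k i' k'
    exact (congrArg (fun y : Fin.Op (Q.I × Q.I) => Fin.entry y (i, k) (i', k')) h1).trans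
      (h2 i k i' k')
  · refine Trans.spans ?_ hfree
    rintro x ⟨a, b, t, ht, hx⟩
    exact ⟨a.1, a.2, b.1, b.2, t, ht, hx.trans (congrArg (fun y : Op (α.J × Q.I) => t * y)
      (Trans.ex_eq α.δ b.1 b.2).symm)⟩
  · let ψ : Fin.Op Q.I → unitInterval → Fin.Op (α.J × Q.I) := fun a t =>
      if h : (show Op Q.I from a) ∈ Q.H then φ ⟨a, h⟩ t else (0 : Op (α.J × Q.I))
    have hψ : ∀ (a : Op Q.I) (ha : a ∈ Q.H) t, ψ a t = φ ⟨a, ha⟩ t := fun a ha t => dif_pos ha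
    refine ⟨ψ, ?_, ?_⟩
    · intro a ha
      obtain ⟨j1, ⟨h, hh, j2⟩, b, j3⟩ := hφ ⟨a, ha⟩
      have e1 : ψ a = fun t => φ ⟨a, ha⟩ t := funext fun t => hψ a ha t
      rw [e1]
      refine ⟨(φ ⟨a, ha⟩).continuous, j1, ⟨h, hh, j2⟩, b.1, b.2, ?_⟩
      have h1 := Trans.ex_eq α.δ b.1 b.2
      exact j3.trans h1.symm
    · intro t
      obtain ⟨φt, F, G, e1, hF, hG, hS⟩ := hφ2 t
      have e2 : (fun a => ψ a t) = Trans.ex φt := by
        funext a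
        by_cases ha : (show Op Q.I from a) ∈ Q.H
        · exact (hψ a ha t).trans ((e1 ⟨a, ha⟩).symm.trans (Trans.ex_eq φt a ha).symm)
        · have e3 : Trans.ex φt a = (0 : Op (α.J × Q.I)) := dif_neg ha
          have e4 : ψ a t = (0 : Op (α.J × Q.I)) := dif_neg ha
          exact e4.trans e3.symm
      have key : Fin.IsHom (Trans.sa Q.H) (Trans.ex φt) ∧
          ∃ (F : Fin.Op (Q.I × Q.I) → Fin.Op ((α.J × Q.I) × Q.I))
            (G : Fin.Op (α.J × Q.I) → Fin.Op (α.J × (Q.I × Q.I))),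
            Fin.IsTensHom (Trans.sa Q.H) (Trans.sa Q.H) (Trans.ex φt) id F ∧
            Fin.IsTensHom (Trans.sa α.A) (Trans.sa Q.H) id (Trans.ex Q.Δ) G ∧
              ∀ a ∈ Trans.sa Q.H, Fin.SameAssoc (F (Trans.ex Q.Δ a)) (G (ψ a t)) := by
        refine ⟨Trans.isHom_ex φt, Trans.ex F, Trans.ex G,
          Trans.tensHom hF (fun a ha => Trans.ex_eq _ a ha) (fun b hb => rfl),
          Trans.tensHom hG (fun a ha => rfl) (fun b hb => Trans.ex_eq _ b hb), ?_⟩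
        intro a ha
        have h1 := Trans.ex_eq Q.Δ a ha
        have h2 := Trans.ex_eq F (Q.Δ ⟨a, ha⟩) (Q.mem ⟨a, ha⟩)
        have h3 := Trans.ex_eq G (φ ⟨a, ha⟩ t) ((hφ ⟨a, ha⟩).1 t)
        exact Trans.same ((congrArg (Trans.ex F) h1).trans h2)
          ((congrArg (Trans.ex G) (hψ a ha t)).trans h3) (hS ⟨a, ha⟩)
      rw [← e2] at key
      exact key

end Pool.Agent.Run7.h982.BT
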